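import Pool.Agent.W845.DH.Stm

/-!
# Hamilton cycles in perturbed digraphs: the unbalanced extremal case with large intersection
-/

set_option autoImplicit false
open scoped Classical

namespace Pool.Agent.W853.DH

open Pool.Agent.W845.DH

lemma ee_out {V : Type} (D : V → V → Prop) (S T : Finset V) : ee D S T = ∑ v ∈ S, od D v T := by
  unfold ee od
  rw [Finset.card_filter, Finset.sum_product]
  exact Finset.sum_congr rfl fun v _ => (Finset.card_filter _ _).symm

lemma ee_in {V : Type} (D : V → V → Prop) (S T : Finset V) : ee D S T = ∑ w ∈ T, idg D w S := by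
  unfold ee idg
  rw [Finset.card_filter, Finset.sum_product_right]
  exact Finset.sum_congr rfl fun v _ => (Finset.card_filter _ _).symm

lemma filter_bd {V : Type} [Fintype V] (p : V → Prop) (T : Finset V) :
    (Finset.univ.filter p).card + T.card ≤ (T.filter p).card + Fintype.card V := by
  have h1 : Finset.univ.filter p ⊆ T.filter p ∪ Tᶜ := by
    intro v hv
    rw [Finset.mem_union, Finset.mem_filter, Finset.mem_compl]
    by_cases h : v ∈ T
    · exact Or.inl ⟨h, (Finset.mem_filter.mp hv).2⟩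
    · exact Or.inr h
  have h2 := (Finset.card_le_card h1).trans (Finset.card_union_le _ _)
  have h3 := Finset.card_compl T
  have h4 := Finset.card_le_univ T
  omega

lemma chooseXY {n : ℕ} (S T U : Finset (Fin n)) (hU : ∀ v, v ∈ U ↔ v ∈ S ∧ v ∈ T) (hn : 64 ≤ n)
    (hS : (n : ℝ) / 2 - n / 100 ≤ S.card) (hT : (n : ℝ) / 2 - n / 100 ≤ T.card) :
    ∃ X Y : Finset (Fin n), Disjoint X Y ∧ X ⊆ S ∧ Y ⊆ T ∧ (n : ℝ) / 8 ≤ X.card ∧
      (n : ℝ) / 8 ≤ Y.card := by
  have hUS : U ⊆ S := fun v hv => ((hU v).mp hv).1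
  have hUT : U ⊆ T := fun v hv => ((hU v).mp hv).2
  have hnR : (64 : ℝ) ≤ n := by exact_mod_cast hn
  by_cases hc : (n : ℝ) / 4 + 2 ≤ U.card
  · have h1 : ⌈(n : ℝ) / 8⌉₊ ≤ U.card := by
      rw [Nat.ceil_le]
      linarith
    obtain ⟨X, hX, hXc⟩ := Finset.exists_subset_card_eq h1
    refine ⟨X, U \ X, Finset.disjoint_sdiff, hX.trans hUS,
      (Finset.sdiff_subset).trans hUT, ?_, ?_⟩
    · rw [hXc]
      exact Nat.le_ceil _
    · have h2 : ((U \ X).card : ℝ) = U.card - X.card := by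
        rw [Finset.card_sdiff_of_subset hX, Nat.cast_sub (Finset.card_le_card hX)]
      have h3 : (X.card : ℝ) < (n : ℝ) / 8 + 1 := by
        rw [hXc]
        exact Nat.ceil_lt_add_one (by positivity)
      rw [h2]
      linarith
  · push Not at hc
    refine ⟨S \ U, T \ U, ?_, Finset.sdiff_subset, Finset.sdiff_subset, ?_, ?_⟩
    · rw [Finset.disjoint_left]
      intro v hv hv'
      rw [Finset.mem_sdiff] at hv hv'
      exact hv.2 ((hU v).mpr ⟨hv.1, hv'.1⟩)
    · rw [Finset.card_sdiff_of_subset hUS, Nat.cast_sub (Finset.card_le_card hUS)]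
      linarith
    · rw [Finset.card_sdiff_of_subset hUT, Nat.cast_sub (Finset.card_le_card hUT)]
      linarith

lemma vs_card {V : Type} (F : Finset (V × V)) : (vs F).card ≤ 2 * F.card := by
  unfold vs
  have h1 := Finset.card_union_le (F.image Prod.fst) (F.image Prod.snd)
  have h2 : (F.image Prod.fst).card ≤ F.card := Finset.card_image_le
  have h3 : (F.image Prod.snd).card ≤ F.card := Finset.card_image_le
  omega

lemma VDs.sub {V : Type} {F M : Finset (V × V)} (h : VDs M) (hF : F ⊆ M) : VDs F :=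
  ⟨fun e he => h.1 e (hF he), fun e he f hf => h.2 e (hF he) f (hF hf)⟩

/-- the final step: `k` disjoint arcs from `S` to `T` suffice -/
lemma final {V : Type} [Fintype V] {N : ℕ} {D G : V → V → Prop} {S T U : Finset V}
    (hH : ∀ (V : Type) [Fintype V]
      (D G : V → V → Prop) (S T : Finset V) (F1 F2 : Finset (V × V)), N ≤ Fintype.card V →
      (∀ u v, D u v → G u v) → Part (32 * (1 / 8192)) ((1 / 8192) ^ 2) D S T →
      (Fintype.card V : ℝ) / 4 ≤ (S.card : ℝ) → (S.card : ℝ) ≤ 3 / 4 * (Fintype.card V : ℝ) →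
      (Fintype.card V : ℝ) / 4 ≤ (T.card : ℝ) → (T.card : ℝ) ≤ 3 / 4 * (Fintype.card V : ℝ) →
      VDs (F1 ∪ F2) → (∀ e ∈ F1 ∪ F2, G e.1 e.2) →
      ((F1 ∪ F2).card : ℝ) ≤ 4 * (1 / 8192) * Fintype.card V →
      (∀ e ∈ F1, e.1 ∈ S ∧ e.2 ∈ T) → (∀ e ∈ F2, e.1 ∉ S ∧ e.2 ∉ T) →
      F1.card + Fintype.card V = F2.card + S.card + T.card →
      ((∃ v, v ∈ S ∧ v ∈ T ∧ v ∉ vs (F1 ∪ F2)) ∨ (∃ v, v ∉ S ∧ v ∉ T ∧ v ∉ vs (F1 ∪ F2)) ∨
        (∃ e ∈ F1, e.1 ∉ T ∧ e.2 ∉ S)) → HamD G)
    (hN : N ≤ Fintype.card V) (hDG : ∀ u v, D u v → G u v)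
    (hstr : Str (1 / 2 ^ 33) D S T) (hU : ∀ v ∈ U, v ∈ S ∧ v ∈ T) (F : Finset (V × V))
    (hF : VDs F) (hFG : ∀ e ∈ F, G e.1 e.2) (hFST : ∀ e ∈ F, e.1 ∈ S ∧ e.2 ∈ T)
    (hc : F.card + Fintype.card V = S.card + T.card) (hUc : 2 * F.card < U.card) : HamD G := by
  obtain ⟨⟨p1, p2, p3, p4, p5⟩, hS, hT, -, hST, -⟩ := hstr
  have hVn : (0 : ℝ) ≤ Fintype.card V := by positivity
  have hS' := abs_le.mp hS
  have hT' := abs_le.mp hT
  have hcR : (F.card : ℝ) + Fintype.card V = S.card + T.card := by exact_mod_cast hc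
  refine hH V D G S T F ∅ hN hDG ?_ ?_ ?_ ?_ ?_ ?_ ?_ ?_ hFST ?_ ?_ ?_
  · have e : (32 : ℝ) * (1 / 8192) = 1 / 256 := by norm_num
    rw [e]
    refine ⟨p1, p2, p3, p4, p5.trans ?_⟩
    apply mul_le_mul_of_nonneg_right _ (by positivity)
    norm_num
  · linarith [hS'.1]
  · linarith [hS'.2]
  · linarith [hT'.1]
  · linarith [hT'.2]
  · rw [Finset.union_empty]
    exact hF
  · rw [Finset.union_empty]
    exact hFG
  · rw [Finset.union_empty]
    linarith
  · intro e he
    exact absurd he (Finset.notMem_empty e)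
  · rw [Finset.card_empty]
    omega
  · left
    rw [Finset.union_empty]
    have h1 := vs_card F
    have h2 : (vs F).card < U.card := lt_of_le_of_lt h1 hUc
    obtain ⟨v, hv, hv'⟩ := Finset.exists_mem_notMem_of_card_lt_card h2
    exact ⟨v, (hU v hv).1, (hU v hv).2, hv'⟩

/-- many arcs from `S` to `T` -/
lemma many {V : Type} [Fintype V] {D : V → V → Prop} {S T : Finset V} {η k : ℝ}
    (hD : Deg ((Fintype.card V : ℝ) / 2 - η) D)
    (hS : (Fintype.card V : ℝ) / 2 - (Fintype.card V : ℝ) / 100 ≤ S.card)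
    (hT : (Fintype.card V : ℝ) / 2 - (Fintype.card V : ℝ) / 100 ≤ T.card)
    (hk : (S.card : ℝ) + T.card = Fintype.card V + k) (hk0 : 0 < k) (hkη : 10 * η < k)
    (hV : (0 : ℝ) < Fintype.card V) :
    k * (Fintype.card V : ℝ) / 32 < ee D S T := by
  have hout : ∀ v ∈ S, (T.card : ℝ) - (Fintype.card V : ℝ) / 2 - η ≤ od D v T := by
    intro v _
    have h1 := (hD v).1
    have h2 : ((od D v Finset.univ + T.card : ℕ) : ℝ) ≤ ((od D v T + Fintype.card V : ℕ) : ℝ) := by
      exact_mod_cast filter_bd (fun w => D v w) T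
    push_cast at h2
    linarith
  have hin : ∀ v ∈ T, (S.card : ℝ) - (Fintype.card V : ℝ) / 2 - η ≤ idg D v S := by
    intro v _
    have h1 := (hD v).2
    have h2 : ((idg D v Finset.univ + S.card : ℕ) : ℝ) ≤ ((idg D v S + Fintype.card V : ℕ) : ℝ) := by
      exact_mod_cast filter_bd (fun w => D w v) S
    push_cast at h2
    linarith
  have h1 : (S.card : ℝ) * ((T.card : ℝ) - (Fintype.card V : ℝ) / 2 - η) ≤ ee D S T := by
    rw [ee_out]
    push_cast
    have := Finset.card_nsmul_le_sum S (fun v => (od D v T : ℝ)) _ hout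
    rwa [nsmul_eq_mul] at this
  have h2 : (T.card : ℝ) * ((S.card : ℝ) - (Fintype.card V : ℝ) / 2 - η) ≤ ee D S T := by
    rw [ee_in]
    push_cast
    have := Finset.card_nsmul_le_sum T (fun v => (idg D v S : ℝ)) _ hin
    rwa [nsmul_eq_mul] at this
  have h3 : ∀ x y : ℝ, (Fintype.card V : ℝ) / 2 - (Fintype.card V : ℝ) / 100 ≤ x →
      k / 2 ≤ y - (Fintype.card V : ℝ) / 2 → x * (y - (Fintype.card V : ℝ) / 2 - η) ≤ ee D S T →
      k * (Fintype.card V : ℝ) / 32 < ee D S T := by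
    intro x y hx hy hxy
    have h4 : 2 * k / 5 ≤ y - (Fintype.card V : ℝ) / 2 - η := by linarith
    have h5 : (0 : ℝ) ≤ x := by linarith
    have h6 : x * (2 * k / 5) ≤ x * (y - (Fintype.card V : ℝ) / 2 - η) :=
      mul_le_mul_of_nonneg_left h4 h5
    have h7 : (49 / 100 * (Fintype.card V : ℝ)) * (2 * k / 5) ≤ x * (2 * k / 5) :=
      mul_le_mul_of_nonneg_right (by linarith) (by linarith)
    have h8 : 0 < k * (Fintype.card V : ℝ) := mul_pos hk0 hV
    have h9 : (49 / 100 * (Fintype.card V : ℝ)) * (2 * k / 5) = 49 / 250 * (k * Fintype.card V) := by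
      ring
    linarith
  rcases le_total ((S.card : ℝ)) (T.card : ℝ) with h | h
  · exact h3 _ _ hS (by linarith) h1
  · exact h3 _ _ hT (by linarith) h2

theorem fsc : S_H → S_DM → S_FSC := by
  intro hH hDM
  obtain ⟨N, hN⟩ := hH (1 / 8192) (by norm_num) (by norm_num)
  refine ⟨N + 64, ?_⟩
  intro n η D S T hn hloop hη hdeg hstr hk1 hk2
  have hcard : Fintype.card (Fin n) = n := Fintype.card_fin n
  have hn0 : (0 : ℝ) < n := by
    have : 0 < n := by omega
    exact_mod_cast this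
  have hs := hstr.2.1
  have ht := hstr.2.2.1
  have hno := hstr.2.2.2.2.2
  rw [hcard] at hs ht hno
  have hs' := abs_le.mp hs
  have ht' := abs_le.mp ht
  obtain ⟨k, hk⟩ : ∃ k : ℕ, S.card + T.card = n + k := ⟨S.card + T.card - n, by omega⟩
  have hk0 : 0 < k := by omega
  have hUc : 2 * k < (S ∩ T).card := by omega
  obtain ⟨X, Y, hXY, hX, hY, hXc, hYc⟩ := chooseXY S T (S ∩ T) (fun v => Finset.mem_inter)
    (by omega) (by linarith [hs'.1]) (by linarith [ht'.1])
  refine ⟨X, Y, hXY, hXc, hYc, ?_⟩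
  intro R hM _
  have hNV : N ≤ Fintype.card (Fin n) := by rw [hcard]; omega
  by_cases hkη : (k : ℝ) ≤ 10 * η
  · obtain ⟨M, hMR, hMV, hMX, hMc⟩ := hM
    have h1 : k ≤ M.card := by
      have : (k : ℝ) ≤ M.card := hkη.trans hMc
      exact_mod_cast this
    obtain ⟨F, hFM, hFc⟩ := Finset.exists_subset_card_eq h1
    refine final (U := S ∩ T) hN hNV (D := D) (fun u v h => Or.inl h) hstr
      (fun v hv => Finset.mem_inter.mp hv) F (VDs.sub hMV hFM) ?_ ?_ ?_ ?_
    · intro e he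
      exact Or.inr (hMR (hFM he))
    · intro e he
      exact ⟨hX (hMX e (hFM he)).1, hY (hMX e (hFM he)).2⟩
    · rw [hFc, hcard]; omega
    · rw [hFc]; exact hUc
  · push Not at hkη
    have hNF : NoFlex (1 / 128) D S T := by
      rcases hno with h | h
      · omega
      · exact h
    have hee : (k : ℝ) * n / 32 < ee D S T := by
      have h1 := many (D := D) (S := S) (T := T) (η := η) (k := k) (by rw [hcard]; exact hdeg)
        (by rw [hcard]; linarith [hs'.1]) (by rw [hcard]; linarith [ht'.1])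
        (by rw [hcard]; exact_mod_cast hk) (by exact_mod_cast hk0) hkη (by rw [hcard]; exact hn0)
      rwa [hcard] at h1
    obtain ⟨F, hFV, hFc, hF⟩ := hDM (Fin n) D S T ∅ ((1 / 128) * n) k (by positivity) hloop
      (fun v hv => by
        have := (hNF.1 v hv).le
        rwa [hcard] at this) (fun v hv => by
        have := (hNF.2 v hv).le
        rwa [hcard] at this) (by
        rw [Finset.card_empty]
        push_cast
        have e : (2 * (k : ℝ) + 0) * (2 * (1 / 128 * (n : ℝ))) = (k : ℝ) * n / 32 := by ring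
        rw [e]
        exact hee)
    refine final (U := S ∩ T) hN hNV (D := D) (fun u v h => Or.inl h) hstr
      (fun v hv => Finset.mem_inter.mp hv) F hFV ?_ ?_ ?_ ?_
    · intro e he
      exact Or.inl (hF e he).1
    · intro e he
      exact ⟨(hF e he).2.1, (hF e he).2.2.1⟩
    · rw [hFc, hcard]; omega
    · rw [hFc]; exact hUc

end Pool.Agent.W853.DH
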